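import Pool.Agent.Y626.WX.Final

/-!
# Oracles with `M[1] = FPT` and `PSPACE` in nearly polynomial time, but `FPT ≠ W[1] ≠ W[2] ≠ …`

Let `α` be a nondecreasing unbounded function, which may grow as slowly as desired. For every oracle
`A` there is an oracle `E A` such that relative to `A` and `E A`

* every problem in `PSPACE` is decided in time `n ^ O(α n)`, and
* `M[1] = FPT`,

and for all `A` outside a set of the first category, it holds moreover that, relative to `A` and
`E A`, for all `t` the model-checking problem for `Σ_{t+1,1}`-sentences is in `W[t+1]` and not in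
`A[t]`, even if the functions of the parameter in the definition of `A[t]` are not required to be
computable. Since `FPT ⊆ W[t] ⊆ W[t+1]` and `W[t] ⊆ A[t]`, it follows that the `W`-hierarchy is
strict, and `M[1] ≠ W[1]`.

Without oracles, `W[t]` is the closure under fpt-reductions of the model-checking problem for
`Σ_{t,1}`-sentences on structures with binary relations. Relative to an oracle, the reductions may
ask the oracle, the elements of the structures are labelled with bit strings, and the sentences may
contain atoms which say that the concatenation of the labels of some variables is in the oracle.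
-/

set_option autoImplicit false

namespace Pool.Agent.Results.MP_ddf912_lc.CollapsedMiniClass

open Filter Pool.Agent.NPC Pool.Agent.H620R2.Gauge Pool.Agent.TH678.GC
  Pool.Agent.TH678.RS Pool.Agent.Y626.WG
open Pool.Agent.Y626.WC (InFPT)
open Pool.Agent.Y626.WX (InM1)

theorem result (α : ℕ → ℕ) (hα : Monotone α) (hα' : Tendsto α atTop atTop) :
    ∃ E : Oracle → Oracle,
      (∀ A : Oracle,
        (∀ L, IsPSPACE (join A (E A)) L → InTime α (join A (E A)) L) ∧
        ∀ (β : Type) [TEnc β] (κ : β → ℕ) (P : β → Prop),
          InM1 (join A (E A)) κ P ↔ InFPT (join A (E A)) κ P) ∧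
      ∀ᶠ A in residual Oracle, ∀ t : ℕ,
        (∀ (β : Type) [TEnc β] (κ : β → ℕ) (P : β → Prop),
          (InFPT (join A (E A)) κ P → InW t (join A (E A)) κ P) ∧
          (InW t (join A (E A)) κ P →
            InW (t + 1) (join A (E A)) κ P ∧ InA t (join A (E A)) κ P)) ∧
        InW (t + 1) (join A (E A)) (fun I : WInst (t + 1) => I.1.param)
          (fun I => I.1.Sat (join A (E A))) ∧
        ¬ InA t (join A (E A)) (fun I : WInst (t + 1) => I.1.param)
          (fun I => I.1.Sat (join A (E A))) :=
  Pool.Agent.Y626.WX.final α hα hα'

end Pool.Agent.Results.MP_ddf912_lc.CollapsedMiniClass
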